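import Pool.Agent.N203.FB.Main

/-!
# The Tate conjecture in families: one étale cover for all prime numbers

Let `U` be a smooth geometrically connected variety over `ℚ` with the étale fundamental group `Γ`, for
example an open subset of an affine space, and let `M` be a direct sum of families `M i` of pure motives
over `U`, of weight `w i` (direct factors of the cohomology of smooth projective families, or of the
tensor constructions).  The generic member `M_η` is a motive over the finitely generated field `ℚ(U)`,
with the `ℓ`-adic realizations `ρ ℓ`, which are representations of `Γ`.  A rational point `t` of `U`
corresponds to a homomorphism `s t` from the absolute Galois group of `ℚ` to `Γ`, and the realizations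
of the member `M_t` are the restrictions of `ρ ℓ` along `s t`.  Let `𝔤` be the Lie algebra (over `ℚ`, in the
Betti realization) of the motivic Galois group of `M_η` over an algebraically closed field, and `r` its
rank.  A Tate tensor of `M_t` is motivated if it is killed by `𝔤 ⊗ ℚ_ℓ` (it is a combination of motivated
classes which exist on the whole family).

For a fixed prime number `ℓ` the theorem of Hilbert shows that for all `t` outside of a thin set which
depends on `ℓ` the Tate tensors of `M_t` are those of `M_η` (Serre, Terasoma).  The union of these thin
sets for all `ℓ` can be everything.

**Theorem.**  Suppose that for ONE prime number `ℓ₀` the elements of `Γ` which have `r` multiplicatively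
independent eigenvalues in the `ℓ₀`-adic realization of the generic member exist and generate a dense
subgroup.  (This is the case if the `ℓ₀`-adic monodromy group of `M_η` is connected and has the rank `r`; for
families with big geometric monodromy this is known.)  Then there is ONE finite étale Galois cover
`U' → U`, with the group `Γ / Δ`, such that for all rational points `t` of `U` over which the fibre of
`U'` is connected (by Hilbert's irreducibility theorem these are all points outside of a thin set if
`U` is rational) and for EVERY prime number `ℓ`, see `AtMember`:

* the `ℓ`-adic realization of `M_t` is semisimple over all finite extensions of `ℚ`;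
* the Lie algebra `𝔥` of all endomorphisms which kill the Tate tensors of `M_t` is a reductive
  subalgebra of maximal rank in `𝔤 ⊗ ℚ_ℓ`, its centre consists of multiples of the weight operator, and
  it contains the part of type A of `𝔤`;
* for all sets `J` of indices: if for every single `i` in `J` the Tate endomorphisms of `M_{i,t}` are
  motivated, then all Tate tensors on the sum of the `M_{i,t}`, `i ∈ J`, are motivated, in all degrees;
* if moreover the elements of `𝔤` which act as zero on the `M_i`, `i ∈ J`, are in the part of type A of
  `𝔤 ⊗ ℂ` (the sum of the centre and of all ideals isomorphic to special linear Lie algebras), then all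
  Tate tensors of `M_t` are motivated;
* if all Tate tensors of `M_t` are motivated, so are all Tate tensors of the generic member `M_η`, which
  is a motive over a finitely generated field.

For `J = ∅`: if `𝔤` is of type A, then the Tate conjecture (for tensors of all degrees, in the form that
the Tate tensors are motivated) is true for all these members `M_t`, for all prime numbers at the
same time, without any hypothesis on endomorphisms.  Examples are families of surfaces over `ℚ` with an
automorphism of order 3 or 4 (over `ℚ`) whose eigenspaces in the transcendental part of the cohomology
have dimension 3, with the monodromy group `SU (2, 1)` (van Geemen and Top); these motives are not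
motives of abelian type.  For example `J` can also consist of abelian schemes (the Tate conjecture for
endomorphisms is a theorem of Faltings), and the other `M_i` can be of rank 3.

Proof.  The theorem for one motive, with the conditions on the full set of indices, or `J` empty, is in
the earlier results `RankAndEndomorphisms` (problem `MP_b8862a_ag`) and `TypeAAllPrimes` (problem
`MP_3703a7_ag`), which are based on the library files `Pool.Agent.Y114` and `Pool.Agent.R931` (`ℓ`-adic six
exponentials theorem, Kronecker-Weber, sizes of relations of Weil numbers).  New are:

1. `frattini`: for a continuous representation `τ` of a compact group over `ℚ_ℓ` there is an open normal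
   subgroup `Δ` such that every closed subgroup which maps onto `Γ / Δ` has the same image under `τ`.
   This gives the cover, from the prime `ℓ₀` alone.
2. `generate_of`: the elements with independent eigenvalues generate the Galois group of `ℚ` at the
   members `M_t`.
3. `max_rank_on`: if a reductive subalgebra `L` of maximal rank of `G` and a `G`-stable subspace `U`
   are such that the projections to the `L`-stable subspaces of `U` can be chosen to commute with `G`, then
   the orthogonal complement of `L` in `G` kills `U`.  So only the endomorphisms of the single `M_i`,
   and not the homomorphisms between them, are needed, and only for `i` in `J`.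
-/

set_option autoImplicit false

namespace Pool.Agent.Results.MP_640417_ag.OneCoverAllPrimes

open NumberField IsDedekindDomain Pool.Agent.Y114.RM Pool.Agent.Y114.GF Pool.Agent.R931.IR
  Pool.Agent.N203.RE Pool.Agent.N203.FB

theorem result {Γ : Type} [Group Γ] [TopologicalSpace Γ] [IsTopologicalGroup Γ] [CompactSpace Γ]
    {ι : Type} [Fintype ι] [DecidableEq ι] {n : ι → ℕ}
    -- the rational points; the weights; the places of good reduction of the members, with their
    -- Frobenius polynomials; the `ℓ`-adic realizations; the Lie algebra of the motivic Galois group
    {T : Type} (s : T → Gal(AlgebraicClosure ℚ/ℚ) →* Γ) (w : ι → ℤ)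
    (S : T → Set (HeightOneSpectrum (𝓞 ℚ)))
    (P : T → HeightOneSpectrum (𝓞 ℚ) → ι → Polynomial ℚ)
    (ρ : ∀ (ℓ : ℕ) [Fact ℓ.Prime], Reps Γ n ℓ) (𝔤 : Submodule ℚ (Module.End ℚ (Betti n)))
    (hM : ∀ t, Realizations (s t) w (S t) (P t) ρ 𝔤) (c : T → ℕ)
    (hc : ∀ t, IntegralOutside (S t) (P t) (c t))
    -- the rank of `𝔤` is at most `r`
    (r : ℕ) (hr : RatRankLE 𝔤 r)
    -- one prime number `ℓ₀`, where the elements with `r` independent eigenvalues generate
    (ℓ₀ : ℕ) [Fact ℓ₀.Prime] (hcont : Conts (ρ ℓ₀)) (h₀ : FullElementsDense (ρ ℓ₀) r) :
    -- one cover, for all members with connected fibre and every prime number `ℓ`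
    ∃ Δ : Subgroup Γ, Δ.Normal ∧ IsOpen (Δ : Set Γ) ∧ ∀ t, ConnectedFibre Δ (s t) →
      ∀ (ℓ : ℕ) [Fact ℓ.Prime], AtMember w (restrictTo (ρ ℓ) (s t)) 𝔤 r ∧
        -- the generic member
        (TateMotivated (restrictTo (ρ ℓ) (s t)) 𝔤 → TateMotivated (ρ ℓ) 𝔤) :=
  main hM c hc r hr ℓ₀ hcont h₀

end Pool.Agent.Results.MP_640417_ag.OneCoverAllPrimes
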