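import Pool.Agent.N203.RE.Main

/-!
# The motivated Mumford-Tate conjecture at every prime: rank and endomorphisms

Let `M` be a direct sum of pure motives `M i` (in the category `AM(k)` of André) over a number field
`K`, or over a finitely generated field `k` of characteristic zero with a point `s` with values in `K`
of a model over which `M` extends; `Γ` is the Galois group of `K`, or the fundamental group of the
model, and `ρ ℓ` the action of `Γ` on the `ℓ`-adic realization.  Let `𝔤` be the Lie algebra (over `ℚ`,
in the Betti realization) of the motivic Galois group of `M` over an algebraically closed field, and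
`𝔪` the Lie algebra of the Mumford-Tate group.  The motivated Mumford-Tate conjecture at `ℓ` says, on
the level of Lie algebras (`MumfordTateAt`): `𝔪 = 𝔤`, the representation `ρ ℓ` is semisimple over all
finite extensions of the ground field, and all Tate tensors (fixed by a subgroup of finite index of
`Γ`) are combinations of motivated tensors, that is, they are killed by `𝔤 ⊗ ℚ_ℓ`.

Obviously the conjecture at one `ℓ` implies that the rank `r` of `𝔤` is equal to the rank of `𝔪` and
(theory of Frobenius tori, Serre) that some element of the Galois group has `r` multiplicatively
independent eigenvalues in the `ℓ`-adic realization; and that all Hodge endomorphisms and all Tate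
endomorphisms are motivated.

**Theorem.**  The ranks and the endomorphisms are sufficient, and for the ranks ONE prime is
sufficient.  Precisely, suppose that

* (A) for one prime `p₀`, unramified in `K` and of good reduction, and one place `v₀` above `p₀`, there
  are `r` multiplicatively independent Frobenius eigenvalues, where the rank of `𝔤` is at most `r`; if
  there are several places above `p₀` they are supposed to be independent; or
* (B) `K = ℚ`, and at one prime `ℓ₀` one element of the Galois group has `r` multiplicatively
  independent eigenvalues (for example this is the case if the conjecture is true at `ℓ₀`, by the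
  theory of Serre).

Then for every prime number `ℓ` (for (A), different from `p₀`), see `RankTheorem`:

* `ρ ℓ` is semisimple over all finite extensions of the ground field;
* the Lie algebra `𝔥` of the endomorphisms which kill all Tate tensors is a reductive subalgebra of
  maximal rank in `𝔤 ⊗ ℚ_ℓ`;
* all Tate tensors are motivated if and only if all Tate endomorphisms are motivated: no Tate
  classes in the tensor spaces of higher degree have to be considered;
* if `𝔪` has the rank `r`, then the motivated Mumford-Tate conjecture at `ℓ` is equivalent to its
  part for endomorphisms: every endomorphism of the Hodge structure, and every Tate endomorphism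
  at `ℓ`, commutes with `𝔤`;
* if `M` is the motive of the generic fibre of a family, `𝒯` the topological fundamental group of the
  base, and if for all subgroups of finite index of `𝒯` the endomorphisms of the Betti realization
  which commute with them commute with `𝔤`, then all Tate tensors are motivated, for all these `ℓ`.

For abelian varieties the Tate conjecture for endomorphisms is the theorem of Faltings and the
independence of the Mumford-Tate conjecture of `ℓ` is a theorem of Larsen and Pink; the theorem
is the analogue for arbitrary motives, where the semisimplicity is not known in general.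

Motives over a number field `K` can be treated as motives over `ℚ` (restriction of scalars), so (B) can
be applied to all motives.

Proof.  By the `ℓ`-adic six exponentials theorem and the theorem of Kronecker and Weber the determinant
of the adjoint action of the Galois group on the Lie algebra `L` of the Tate tensors is of finite
order at `v₀`; `L` contains the torus of the Frobenius element at `v₀`, which is a maximal torus of
`𝔤`, and it follows that `L` is reductive and `ρ ℓ` semisimple (library of the starting files
`MaximalFrobeniusTorus`, `Pool.Agent.Y114`, `Pool.Agent.R931`).  In the case (B) such places exist by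
the theorem of Chebotarev and because the sizes of the relations between Weil numbers of bounded
degree are bounded.  A reductive subalgebra of maximal rank with the same commutant is equal to
`𝔤` (theorem `max_rank` of the library).  For the Mumford-Tate group one needs the existence of maximal
tori in `𝔪 ⊗ ℂ` (`Pool.Agent.N203.RE.exists_torus`).
-/

set_option autoImplicit false

namespace Pool.Agent.Results.MP_b8862a_ag.RankAndEndomorphisms

open NumberField IsDedekindDomain Module Pool.Agent.Y114.RM Pool.Agent.Y114.GF Pool.Agent.R931.IR
  Pool.Agent.N203.RE

theorem result {Γ : Type} [Group Γ] [TopologicalSpace Γ] [IsTopologicalGroup Γ] [CompactSpace Γ]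
    {ι : Type} [Fintype ι] [DecidableEq ι] {n : ι → ℕ}
    -- the weights, the `ℓ`-adic realizations, the Lie algebra of the motivic Galois group; its rank
    -- is at most `r`
    (w : ι → ℤ) (ρ : ∀ (ℓ : ℕ) [Fact ℓ.Prime], Reps Γ n ℓ) (𝔤 : Submodule ℚ (End ℚ (Betti n)))
    (r : ℕ) (hrank : RatRankLE 𝔤 r) :
    -- (A) a point over a number field `K`, and one place of maximal rank
    (∀ (K : Type) [Field K] [NumberField K] (s : Gal(AlgebraicClosure K/K) →* Γ)
      (S : Set (HeightOneSpectrum (𝓞 K))) (P : HeightOneSpectrum (𝓞 K) → ι → Polynomial ℚ),
      Realizations s w S P ρ 𝔤 → ∀ p₀ : ℕ, MaximalRankAt S P r p₀ →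
      ∀ (ℓ : ℕ) [Fact ℓ.Prime], ℓ ≠ p₀ → RankTheorem (ρ ℓ) 𝔤 r) ∧
    -- (B) a point over `ℚ`, and one element at one prime `ℓ₀`
    (∀ (s : Gal(AlgebraicClosure ℚ/ℚ) →* Γ) (S : Set (HeightOneSpectrum (𝓞 ℚ)))
      (P : HeightOneSpectrum (𝓞 ℚ) → ι → Polynomial ℚ), Realizations s w S P ρ 𝔤 →
      ∀ c : ℕ, IntegralOutside S P c → ∀ (ℓ₀ : ℕ) [Fact ℓ₀.Prime],
      (∃ σ, IndependentEigenvalues (ρ ℓ₀) (s σ) r) →
      ∀ (ℓ : ℕ) [Fact ℓ.Prime], RankTheorem (ρ ℓ) 𝔤 r) :=
  ⟨fun _ _ _ _ _ _ h p₀ hp ℓ _ hℓ => main_place h r hrank p₀ hp ℓ hℓ,
    fun _ _ _ h c hint ℓ₀ _ hσ ℓ _ => main_element h c hint r hrank ℓ₀ hσ ℓ⟩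

end Pool.Agent.Results.MP_b8862a_ag.RankAndEndomorphisms
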